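import Mathlib

set_option autoImplicit false

/-! # Expansions at zero -/

namespace Pool.Agent.Zk74.TZ

open Filter Topology Asymptotics

/-- If `p(h) / h ^ r` converges for `h → 0`, `deg p ≤ r`, then the limit is the coefficient of
`h ^ r`. -/
theorem poly_lim : ∀ (r : ℕ) (p : Polynomial ℂ), p.natDegree ≤ r → ∀ B : ℂ,
    Tendsto (fun h : ℝ => p.eval (h : ℂ) / (h : ℂ) ^ r) (𝓝[>] 0) (𝓝 B) → B = p.coeff r
  | 0, p, hp, B, h => by
    have h1 : (fun x : ℝ => p.eval (x : ℂ) / (x : ℂ) ^ 0) = fun _ => p.coeff 0 := by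
      funext x
      rw [pow_zero, div_one, Polynomial.eq_C_of_natDegree_le_zero hp, Polynomial.eval_C,
        Polynomial.coeff_C_zero]
    rw [h1] at h
    exact tendsto_nhds_unique h tendsto_const_nhds
  | (r + 1), p, hp, B, h => by
    have hid : Tendsto (fun x : ℝ => (x : ℂ)) (𝓝[>] 0) (𝓝 0) := by
      have h1 : Tendsto (fun x : ℝ => (x : ℂ)) (𝓝 0) (𝓝 ((0 : ℝ) : ℂ)) :=
        Complex.continuous_ofReal.tendsto 0
      rw [Complex.ofReal_zero] at h1
      exact h1.mono_left nhdsWithin_le_nhds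
    have hne : ∀ᶠ x : ℝ in 𝓝[>] 0, (x : ℂ) ≠ 0 := by
      filter_upwards [self_mem_nhdsWithin] with x hx
      exact_mod_cast (ne_of_gt hx)
    have h0 : p.coeff 0 = 0 := by
      have h1 : Tendsto (fun x : ℝ => p.eval (x : ℂ)) (𝓝[>] 0) (𝓝 (p.eval 0)) :=
        (p.continuous.tendsto 0).comp hid
      have h2 : Tendsto (fun x : ℝ => p.eval (x : ℂ) / (x : ℂ) ^ (r + 1) * (x : ℂ) ^ (r + 1))
          (𝓝[>] 0) (𝓝 (B * 0 ^ (r + 1))) := h.mul (hid.pow _)
      have h3 : Tendsto (fun x : ℝ => p.eval (x : ℂ)) (𝓝[>] 0) (𝓝 (B * 0 ^ (r + 1))) := by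
        refine h2.congr' ?_
        filter_upwards [hne] with x hx
        rw [div_mul_cancel₀ _ (pow_ne_zero _ hx)]
      have h4 := tendsto_nhds_unique h1 h3
      rw [zero_pow (Nat.succ_ne_zero r), mul_zero] at h4
      rw [Polynomial.coeff_zero_eq_eval_zero]
      exact h4
    have h1 : p = Polynomial.X * p.divX := by
      conv_lhs => rw [← Polynomial.X_mul_divX_add p, h0, Polynomial.C_0, add_zero]
    have h2 : p.divX.natDegree ≤ r := by
      rw [Polynomial.natDegree_divX_eq_natDegree_tsub_one]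
      omega
    have h3 : Tendsto (fun x : ℝ => p.divX.eval (x : ℂ) / (x : ℂ) ^ r) (𝓝[>] 0) (𝓝 B) := by
      refine h.congr' ?_
      filter_upwards [hne] with x hx
      conv_lhs => rw [h1]
      rw [Polynomial.eval_mul, Polynomial.eval_X, pow_succ', mul_div_mul_left _ _ hx]
    rw [poly_lim r p.divX h2 B h3, Polynomial.coeff_divX]

/-- `Φ` has Taylor expansions at `h = 0` whose coefficients are polynomials in `s`. -/
def ET (Φ : ℕ → ℝ → ℝ) : Prop :=
  ∀ r : ℕ, ∃ Q : ℕ → Polynomial ℝ, ∀ s : ℕ,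
    (fun h : ℝ => Φ s h - ∑ l ∈ Finset.range (r + 1), (Q l).eval (s : ℝ) * h ^ l) =o[𝓝[>] 0]
      (fun h : ℝ => h ^ r)

theorem ET.add {Φ Ψ : ℕ → ℝ → ℝ} (h1 : ET Φ) (h2 : ET Ψ) : ET (fun s h => Φ s h + Ψ s h) := by
  intro r
  obtain ⟨Q1, hQ1⟩ := h1 r
  obtain ⟨Q2, hQ2⟩ := h2 r
  refine ⟨fun l => Q1 l + Q2 l, fun s => ((hQ1 s).add (hQ2 s)).congr_left fun h => ?_⟩
  have h3 : ∑ l ∈ Finset.range (r + 1), (Q1 l + Q2 l).eval (s : ℝ) * h ^ l =
      ∑ l ∈ Finset.range (r + 1), (Q1 l).eval (s : ℝ) * h ^ l +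
        ∑ l ∈ Finset.range (r + 1), (Q2 l).eval (s : ℝ) * h ^ l := by
    rw [← Finset.sum_add_distrib]
    exact Finset.sum_congr rfl fun l _ => by rw [Polynomial.eval_add, add_mul]
  rw [h3]
  ring

theorem ET.smul {Φ : ℕ → ℝ → ℝ} (h1 : ET Φ) (c : ℝ) : ET (fun s h => c * Φ s h) := by
  intro r
  obtain ⟨Q1, hQ1⟩ := h1 r
  refine ⟨fun l => Polynomial.C c * Q1 l, fun s => ((hQ1 s).const_mul_left c).congr_left
    fun h => ?_⟩
  have h3 : ∑ l ∈ Finset.range (r + 1), (Polynomial.C c * Q1 l).eval (s : ℝ) * h ^ l =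
      c * ∑ l ∈ Finset.range (r + 1), (Q1 l).eval (s : ℝ) * h ^ l := by
    rw [Finset.mul_sum]
    exact Finset.sum_congr rfl fun l _ => by
      rw [Polynomial.eval_mul, Polynomial.eval_C, mul_assoc]
  rw [h3]
  ring

theorem ET.zero : ET (fun _ _ => 0) := by
  intro r
  refine ⟨fun _ => 0, fun s => ?_⟩
  simp only [Polynomial.eval_zero, zero_mul, Finset.sum_const_zero, sub_zero]
  exact isLittleO_zero _ _

theorem ET.sum {ι : Type} (S : Finset ι) (Φ : ι → ℕ → ℝ → ℝ) (h : ∀ i ∈ S, ET (Φ i)) :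
    ET (fun s x => ∑ i ∈ S, Φ i s x) := by
  classical
  induction S using Finset.induction_on with
  | empty =>
    simp only [Finset.sum_empty]
    exact ET.zero
  | insert i S hi ih =>
    have h1 := (h i (Finset.mem_insert_self i S)).add
      (ih fun j hj => h j (Finset.mem_insert_of_mem hj))
    refine cast (congrArg ET ?_) h1
    funext s x
    rw [Finset.sum_insert hi]

theorem ET.exp (α β : ℝ) : ET (fun s h => Real.exp (h * (α + β * s))) := by
  intro r
  refine ⟨fun l => Polynomial.C ((l.factorial : ℝ)⁻¹) *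
    (Polynomial.C α + Polynomial.C β * Polynomial.X) ^ l, fun s => ?_⟩
  set c : ℝ := α + β * s with hc
  have h1 := Real.exp_sub_sum_range_succ_isLittleO_pow r
  have h2 : Tendsto (fun h : ℝ => h * c) (𝓝[>] 0) (𝓝 0) := by
    have h3 : Tendsto (fun h : ℝ => h * c) (𝓝 0) (𝓝 (0 * c)) :=
      (continuous_id.mul continuous_const).tendsto 0
    rw [zero_mul] at h3
    exact h3.mono_left nhdsWithin_le_nhds
  have h3 := h1.comp_tendsto h2
  have h4 : ((fun x : ℝ => x ^ r) ∘ fun h : ℝ => h * c) =O[𝓝[>] 0] fun h : ℝ => h ^ r := by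
    have h5 : ((fun x : ℝ => x ^ r) ∘ fun h : ℝ => h * c) = fun h : ℝ => c ^ r * h ^ r := by
      funext h
      change (h * c) ^ r = c ^ r * h ^ r
      rw [mul_pow, mul_comm]
    rw [h5]
    exact (isBigO_refl _ _).const_mul_left _
  refine (h3.trans_isBigO h4).congr_left fun h => ?_
  change Real.exp (h * c) - _ = Real.exp (h * c) - _
  congr 1
  refine Finset.sum_congr rfl fun l _ => ?_
  rw [Polynomial.eval_mul, Polynomial.eval_C, Polynomial.eval_pow, Polynomial.eval_add,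
    Polynomial.eval_C, Polynomial.eval_mul, Polynomial.eval_C, Polynomial.eval_X, ← hc, mul_pow]
  rw [div_eq_mul_inv]
  ring

/-- `(1 - exp (- h c)) / h → c` -/
theorem tendsto_fac (c : ℝ) :
    Tendsto (fun h : ℝ => (((1 - Real.exp (-(h * c))) / h : ℝ) : ℂ)) (𝓝[>] 0) (𝓝 (c : ℂ)) := by
  refine (Complex.continuous_ofReal.tendsto c).comp ?_
  have h1 : HasDerivAt (fun h : ℝ => 1 - Real.exp (-(h * c))) c 0 := by
    have h2 : HasDerivAt (fun h : ℝ => -(h * c)) (-(1 * c)) 0 :=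
      ((hasDerivAt_id (0 : ℝ)).mul_const c).fun_neg
    have h3 : HasDerivAt (fun h : ℝ => 1 - Real.exp (-(h * c)))
        (-(Real.exp (-(0 * c)) * -(1 * c))) 0 := (h2.exp).const_sub 1
    have h5 : -(Real.exp (-(0 * c)) * -(1 * c)) = c := by
      rw [zero_mul, neg_zero, Real.exp_zero]
      ring
    rw [h5] at h3
    exact h3
  have h4 := h1.tendsto_slope_zero_right
  refine h4.congr' ?_
  refine Filter.Eventually.of_forall fun h => ?_
  change h⁻¹ • ((1 - Real.exp (-((0 + h) * c))) - (1 - Real.exp (-(0 * c)))) =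
    (1 - Real.exp (-(h * c))) / h
  rw [zero_add, zero_mul, neg_zero, Real.exp_zero, sub_self, sub_zero, smul_eq_mul,
    div_eq_inv_mul]

end Pool.Agent.Zk74.TZ
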