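import Pool.Agent.R852.BM.Defs

set_option autoImplicit false

/-! # The topological zeta function as the limit of the motivic one

Let `M` be a commutative ring with a unit `L`, and let `φ : M → ℤ[w, w⁻¹]` be a ring homomorphism with
`φ(L) = w ^ k`, `k > 0`. The main example is `M = K₀(Var_ℂ)[1/L]` with the weight polynomials `φ`, `k = 2`; the
value of the weight polynomial of a variety at `w = 1` is its Euler characteristic. For the motivic
zeta function `Z = ∑_I [E_I°] L⁻ᵐ ∏_{i ∈ I} (L - 1) / (L^(ν_i) T^(-N_i) - 1)` put `w = exp h` and `T = L^(-s)`, and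
let `h` tend to zero: the limit is the topological zeta function
`∑_I χ(E_I°) ∏_{i ∈ I} 1 / (ν_i + N_i s)`. -/

namespace Pool.Agent.Zk74.TZ

open Filter Topology

/-- the unit `exp h` -/
noncomputable def expU (h : ℝ) : ℝˣ :=
  ⟨Real.exp h, Real.exp (-h), by rw [← Real.exp_add, add_neg_cancel, Real.exp_zero], by
    rw [← Real.exp_add, neg_add_cancel, Real.exp_zero]⟩

/-- the value at `w = exp h` of a Laurent polynomial in `w` -/
noncomputable def wval (h : ℝ) : LaurentPolynomial ℤ →+* ℝ :=
  LaurentPolynomial.eval₂ (Int.castRingHom ℝ) (expU h)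

/-- The value of the series `Z = ∑ z_e T^e` at `w = exp h` and `T = L^(-s) = exp (-k s h)`. -/
noncomputable def zval {M : Type} [CommRing M] (φ : M →+* LaurentPolynomial ℤ) (k : ℕ)
    (Z : PowerSeries M) (s : ℕ) (h : ℝ) : ℝ :=
  ∑' e : ℕ, wval h (φ (PowerSeries.coeff e Z)) * Real.exp (-(k * s * h)) ^ e

/-- The rational function `Zt` is the topological zeta function which belongs to the motivic zeta
function `Z`: for all large natural numbers `s`, the values of `Z` at `w = exp h`, `T = L^(-s)` tend to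
`Zt(s)` if `h > 0` tends to zero. -/
def IsTopZeta {M : Type} [CommRing M] (φ : M →+* LaurentPolynomial ℤ) (k : ℕ)
    (Z : PowerSeries M) (Zt : RatFunc ℂ) : Prop :=
  ∀ᶠ s : ℕ in atTop, Tendsto (fun h : ℝ => ((zval φ k Z s h : ℝ) : ℂ)) (𝓝[>] 0)
    (𝓝 (Zt.eval (RingHom.id ℂ) s))

end Pool.Agent.Zk74.TZ
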