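import Pool.Agent.Zk74.TZ.Val
import Pool.Agent.Zk74.TZ.Asy

set_option autoImplicit false

/-! # The poles of the topological zeta function are poles of the motivic one -/

namespace Pool.Agent.Zk74.TZ

open Filter Topology Asymptotics Pool.Agent.TH192.DT Pool.Agent.R852.BM

variable {M : Type} [CommRing M]

/-- the denominators -/
noncomputable def den (u : Mˣ) (p : ℤ × ℤ) : Polynomial M :=
  1 - Polynomial.C ((u ^ p.1 : Mˣ) : M) * Polynomial.X ^ p.2.toNat

theorem den_mul_geoU (u : Mˣ) (p : ℤ × ℤ) (hp : 0 < p.2) :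
    (den u p : PowerSeries M) * geoU u p.1 p.2 = 1 := by
  have hn : 0 < p.2.toNat := by omega
  have h1 : (den u p : PowerSeries M) =
      1 - PowerSeries.C ((u ^ p.1 : Mˣ) : M) * PowerSeries.X ^ p.2.toNat := by
    rw [den, Polynomial.coe_sub, Polynomial.coe_mul, Polynomial.coe_pow, Polynomial.coe_one,
      Polynomial.coe_C, Polynomial.coe_X]
  rw [h1, geoU]
  exact PowerSeries.mul_invOfUnit _ (1 : Mˣ) (by
    rw [map_sub, map_one, map_mul, map_pow, PowerSeries.constantCoeff_X, zero_pow hn.ne', mul_zero,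
      sub_zero, Units.val_one])

/-- all elements are quotients of polynomials by products of denominators -/
theorem rep (u : Mˣ) (S : Set (ℤ × ℤ)) (hS : ∀ p ∈ S, 0 < p.2) {Z : PowerSeries M}
    (hZ : Z ∈ ratU u S) : ∃ (D : List (ℤ × ℤ)) (P : Polynomial M), (∀ p ∈ D, p ∈ S) ∧
      (((D.map (den u)).prod : Polynomial M) : PowerSeries M) * Z = (P : PowerSeries M) := by
  induction hZ using Algebra.adjoin_induction with
  | mem x hx =>
    rcases hx with hx | ⟨p, hp, rfl⟩
    · refine ⟨[], Polynomial.X, by simp, ?_⟩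
      rw [Set.mem_singleton_iff.1 hx, List.map_nil, List.prod_nil, Polynomial.coe_one, one_mul,
        Polynomial.coe_X]
    · refine ⟨[p], 1, fun q hq => by rw [List.mem_singleton.1 hq]; exact hp, ?_⟩
      rw [List.map_singleton, List.prod_singleton, den_mul_geoU u p (hS p hp),
        Polynomial.coe_one]
  | algebraMap c =>
    refine ⟨[], Polynomial.C c, by simp, ?_⟩
    rw [List.map_nil, List.prod_nil, Polynomial.coe_one, one_mul, Polynomial.coe_C]
    rfl
  | add x y _ _ hx hy =>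
    obtain ⟨D1, P1, h1, h2⟩ := hx
    obtain ⟨D2, P2, h3, h4⟩ := hy
    refine ⟨D1 ++ D2, (D2.map (den u)).prod * P1 + (D1.map (den u)).prod * P2,
      fun p hp => (List.mem_append.1 hp).elim (h1 p) (h3 p), ?_⟩
    rw [List.map_append, List.prod_append, Polynomial.coe_add, Polynomial.coe_mul,
      Polynomial.coe_mul, Polynomial.coe_mul, ← h2, ← h4]
    ring
  | mul x y _ _ hx hy =>
    obtain ⟨D1, P1, h1, h2⟩ := hx
    obtain ⟨D2, P2, h3, h4⟩ := hy
    refine ⟨D1 ++ D2, P1 * P2,
      fun p hp => (List.mem_append.1 hp).elim (h1 p) (h3 p), ?_⟩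
    rw [List.map_append, List.prod_append, Polynomial.coe_mul, Polynomial.coe_mul, ← h2, ← h4]
    ring

theorem absAt_ratU (u : Mˣ) (S : Set (ℤ × ℤ)) (hS : ∀ p ∈ S, 0 < p.2) (ψ : M →+* ℝ) (t : ℝ)
    (h : ∀ p ∈ S, ‖ψ ((u ^ p.1 : Mˣ) : M) * t ^ p.2.toNat‖ < 1) {Z : PowerSeries M}
    (hZ : Z ∈ ratU u S) : AbsAt ψ t Z := by
  induction hZ using Algebra.adjoin_induction with
  | mem x hx =>
    rcases hx with hx | ⟨p, hp, rfl⟩
    · rw [Set.mem_singleton_iff.1 hx, ← Polynomial.coe_X]
      exact (absAt_poly _).1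
    · have h1 := absAt_geoU (ψ := ψ) (t := t) u p.1 p.2.toNat (by have := hS p hp; omega) (h p hp)
      rwa [Int.toNat_of_nonneg (hS p hp).le] at h1
  | algebraMap c =>
    have h1 := (absAt_poly (ψ := ψ) (t := t) (Polynomial.C c)).1
    rw [Polynomial.coe_C] at h1
    exact h1
  | add x y _ _ hx hy => exact (hx.add hy).1
  | mul x y _ _ hx hy => exact (hx.mul hy).1

theorem rexp_int (h : ℝ) (n : ℤ) : Real.exp (n * h) = Real.exp h ^ n := by
  rw [mul_comm, Real.exp_mul, Real.rpow_intCast]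

theorem wval_T (h : ℝ) (n : ℤ) : wval h (LaurentPolynomial.T n) = Real.exp (n * h) := by
  rw [wval, LaurentPolynomial.eval₂_T, Units.val_zpow_eq_zpow_val, rexp_int]
  rfl

theorem wval_C (h : ℝ) (c : ℤ) : wval h (LaurentPolynomial.C c) = c := by
  rw [wval, LaurentPolynomial.eval₂_C]
  rfl

/-- the expansions of the values of a polynomial -/
theorem et_monomial (k : ℕ) (i : ℕ) (f : LaurentPolynomial ℤ) :
    ET fun s h => wval h f * Real.exp (-(k * s * h)) ^ i := by
  induction f using LaurentPolynomial.induction_on' with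
  | add p q hp hq =>
    refine cast (congrArg ET ?_) (hp.add hq)
    funext s h
    rw [map_add, add_mul]
  | C_mul_T n a =>
    refine cast (congrArg ET ?_) ((ET.exp n (-(k * i))).smul (a : ℝ))
    funext s h
    rw [map_mul, wval_T, wval_C, mul_assoc, ← Real.exp_nat_mul, ← Real.exp_add]
    congr 2
    ring

theorem et_poly (φ : M →+* LaurentPolynomial ℤ) (k : ℕ) (P : Polynomial M) :
    ET fun s h => (P.map ((wval h).comp φ)).eval (Real.exp (-(k * s * h))) := by
  refine cast (congrArg ET ?_) (ET.sum (Finset.range (P.natDegree + 1))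
    (fun i s h => wval h (φ (P.coeff i)) * Real.exp (-(k * s * h)) ^ i)
    fun i _ => et_monomial k i (φ (P.coeff i)))
  funext s h
  rw [Polynomial.eval_eq_sum_range' (n := P.natDegree + 1)
    (lt_of_le_of_lt Polynomial.natDegree_map_le (Nat.lt_succ_self _))]
  exact Finset.sum_congr rfl fun i _ => by rw [Polynomial.coeff_map]; rfl

theorem psi_zpow (φ : M →+* LaurentPolynomial ℤ) (k : ℕ) (L : Mˣ)
    (hL : φ L = LaurentPolynomial.T k) (h : ℝ) (a : ℤ) :
    ((wval h).comp φ) ((L ^ a : Mˣ) : M) = Real.exp (k * a * h) := by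
  have h1 : ((wval h).comp φ) ((L ^ a : Mˣ) : M) =
      ((Units.map ((wval h).comp φ : M →* ℝ) L ^ a : ℝˣ) : ℝ) := by
    rw [← map_zpow]
    rfl
  have h2 : ((Units.map ((wval h).comp φ : M →* ℝ) L : ℝˣ) : ℝ) = Real.exp (k * h) := by
    change wval h (φ L) = _
    rw [hL, wval_T]
    norm_cast
  rw [h1, Units.val_zpow_eq_zpow_val, h2, ← rexp_int]
  congr 1
  ring

/-- the exponents: `-a + n s` -/
noncomputable def mm (p : ℤ × ℤ) (s : ℕ) : ℝ := -(p.1 : ℝ) + p.2 * s

theorem den_val (φ : M →+* LaurentPolynomial ℤ) (k : ℕ) (L : Mˣ)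
    (hL : φ L = LaurentPolynomial.T k) (s : ℕ) (h : ℝ) (p : ℤ × ℤ) (hp : 0 < p.2) :
    ((den L p).map ((wval h).comp φ)).eval (Real.exp (-(k * s * h))) =
      1 - Real.exp (-(h * (k * mm p s))) := by
  rw [den, Polynomial.map_sub, Polynomial.map_one, Polynomial.map_mul, Polynomial.map_pow,
    Polynomial.map_X, Polynomial.map_C, Polynomial.eval_sub, Polynomial.eval_one,
    Polynomial.eval_mul, Polynomial.eval_C, Polynomial.eval_pow, Polynomial.eval_X,
    psi_zpow φ k L hL h p.1, ← Real.exp_nat_mul, ← Real.exp_add]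
  congr 2
  have h1 : ((p.2.toNat : ℕ) : ℝ) = p.2 := by
    have h2 : ((p.2.toNat : ℕ) : ℤ) = p.2 := Int.toNat_of_nonneg hp.le
    exact_mod_cast h2
  rw [h1, mm]
  ring

theorem norm_lt (φ : M →+* LaurentPolynomial ℤ) (k : ℕ) (hk : 0 < k) (L : Mˣ)
    (hL : φ L = LaurentPolynomial.T k) (s : ℕ) (h : ℝ) (hh : 0 < h) (p : ℤ × ℤ) (hp1 : p.1 < 0)
    (hp : 0 < p.2) :
    ‖((wval h).comp φ) ((L ^ p.1 : Mˣ) : M) * Real.exp (-(k * s * h)) ^ p.2.toNat‖ < 1 := by
  rw [psi_zpow φ k L hL h p.1, ← Real.exp_nat_mul, ← Real.exp_add, Real.norm_eq_abs,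
    abs_of_pos (Real.exp_pos _), Real.exp_lt_one_iff]
  have h1 : ((p.2.toNat : ℕ) : ℝ) = p.2 := by
    have h2 : ((p.2.toNat : ℕ) : ℤ) = p.2 := Int.toNat_of_nonneg hp.le
    exact_mod_cast h2
  have h2 : (p.1 : ℝ) < 0 := by exact_mod_cast hp1
  have h3 : (0 : ℝ) < p.2 := by exact_mod_cast hp
  have hk' : (0 : ℝ) < k := by exact_mod_cast hk
  have h4 : (k : ℝ) * p.1 * h + ((p.2.toNat : ℕ) : ℝ) * -(k * s * h) =
      -(k * h * (-(p.1 : ℝ) + p.2 * s)) := by
    rw [h1]
    ring
  rw [h4, neg_lt_zero]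
  have h5 : (0 : ℝ) ≤ p.2 * s := mul_nonneg h3.le (Nat.cast_nonneg s)
  have h6 : (0 : ℝ) < -(p.1 : ℝ) + p.2 * s := by linarith
  positivity

/-- **The poles.** -/
theorem top_main (φ : M →+* LaurentPolynomial ℤ) (k : ℕ) (hk : 0 < k) (L : Mˣ)
    (hL : φ L = LaurentPolynomial.T k) (b : Polynomial ℂ) (Z : PowerSeries M)
    (hZ : Z ∈ ratU L (RootPairs b)) (Zt : RatFunc ℂ) (ht : IsTopZeta φ k Z Zt) (s₀ : ℂ)
    (hs : Zt.denom.eval s₀ = 0) : b.eval s₀ = 0 := by
  obtain ⟨D, P, hD, hP⟩ := rep L (RootPairs b) (fun p hp => hp.2.1) hZ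
  set r := D.length with hr
  obtain ⟨Q, hQ⟩ := et_poly φ k P r
  -- the identity of the values
  have hval : ∀ (s : ℕ) (h : ℝ), 0 < h →
      (D.map fun p => 1 - Real.exp (-(h * (k * mm p s)))).prod * zval φ k Z s h =
        (P.map ((wval h).comp φ)).eval (Real.exp (-(k * s * h))) := by
    intro s h hh
    have habs := absAt_ratU L (RootPairs b) (fun p hp => hp.2.1) ((wval h).comp φ)
      (Real.exp (-(k * s * h)))
      (fun p hp => norm_lt φ k hk L hL s h hh p hp.1 hp.2.1) hZ
    have h1 := (absAt_poly (ψ := (wval h).comp φ) (t := Real.exp (-(k * s * h)))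
      ((D.map (den L)).prod)).1.mul habs
    rw [hP, (absAt_poly P).2, (absAt_poly _).2] at h1
    have h2 : (((D.map (den L)).prod).map ((wval h).comp φ)).eval (Real.exp (-(k * s * h))) =
        (D.map fun p => 1 - Real.exp (-(h * (k * mm p s)))).prod := by
      clear h1 hP hr hQ
      clear_value r
      induction D with
      | nil => simp
      | cons p D ih =>
        rw [List.map_cons, List.prod_cons, Polynomial.map_mul, Polynomial.eval_mul,
          ih (fun q hq => hD q (List.mem_cons_of_mem p hq)), List.map_cons, List.prod_cons,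
          den_val φ k L hL s h p (hD p (List.mem_cons_self)).2.1]
    rw [h2] at h1
    exact h1.2.symm
  -- the limit of the product of the denominators
  have hden : ∀ s : ℕ, Tendsto (fun h : ℝ =>
      (((D.map fun p => 1 - Real.exp (-(h * (k * mm p s)))).prod : ℝ) : ℂ) / (h : ℂ) ^ r)
      (𝓝[>] 0) (𝓝 ((D.map fun p => ((k * mm p s : ℝ) : ℂ)).prod)) := by
    intro s
    rw [hr]
    clear hP hQ hval hr
    clear_value r
    induction D with
    | nil => simp
    | cons p D ih =>
      have h1 := (tendsto_fac (k * mm p s)).mul (ih fun q hq => hD q (List.mem_cons_of_mem p hq))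
      rw [List.map_cons, List.prod_cons]
      refine h1.congr fun h => ?_
      rw [List.map_cons, List.prod_cons, List.length_cons, pow_succ', Complex.ofReal_mul,
        Complex.ofReal_div, div_mul_div_comm]
  -- the limit is a polynomial in `s`
  have hlim : ∀ᶠ s : ℕ in atTop,
      Zt.eval (RingHom.id ℂ) s * (D.map fun p => ((k * mm p s : ℝ) : ℂ)).prod =
        (((Q r).eval (s : ℝ) : ℝ) : ℂ) := by
    filter_upwards [ht] with s hs1
    have h1 := hs1.mul (hden s)
    have hcoef : ∀ m, (∑ l ∈ Finset.range (r + 1),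
        Polynomial.C ((((Q l).eval (s : ℝ) : ℝ) : ℂ)) * Polynomial.X ^ l).coeff m =
          if m < r + 1 then (((Q m).eval (s : ℝ) : ℝ) : ℂ) else 0 := by
      intro m
      rw [Polynomial.finset_sum_coeff]
      simp only [Polynomial.coeff_C_mul, Polynomial.coeff_X_pow, mul_ite, mul_one, mul_zero]
      rw [Finset.sum_ite_eq]
      simp only [Finset.mem_range]
    have h2 := poly_lim r (∑ l ∈ Finset.range (r + 1),
        Polynomial.C ((((Q l).eval (s : ℝ) : ℝ) : ℂ)) * Polynomial.X ^ l) (by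
          rw [Polynomial.natDegree_le_iff_coeff_eq_zero]
          intro m hm
          rw [hcoef, if_neg (by omega)]) _ (by
      have hne : ∀ᶠ x : ℝ in 𝓝[>] 0, (x : ℂ) ≠ 0 := by
        filter_upwards [self_mem_nhdsWithin] with x hx
        exact_mod_cast (ne_of_gt hx)
      have h3 : Tendsto (fun h : ℝ => (((P.map ((wval h).comp φ)).eval
          (Real.exp (-(k * s * h))) : ℝ) : ℂ) / (h : ℂ) ^ r) (𝓝[>] 0)
          (𝓝 (Zt.eval (RingHom.id ℂ) s * (D.map fun p => ((k * mm p s : ℝ) : ℂ)).prod)) := by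
        refine h1.congr' ?_
        filter_upwards [self_mem_nhdsWithin] with h hh
        rw [← hval s h hh, Complex.ofReal_mul]
        ring
      have h4 : Tendsto (fun h : ℝ => (((P.map ((wval h).comp φ)).eval
          (Real.exp (-(k * s * h))) - ∑ l ∈ Finset.range (r + 1), (Q l).eval (s : ℝ) * h ^ l : ℝ)
            : ℂ) / (h : ℂ) ^ r) (𝓝[>] 0) (𝓝 0) := by
        have h5 := (hQ s).tendsto_div_nhds_zero
        have h6 := (Complex.continuous_ofReal.tendsto 0).comp h5
        rw [Complex.ofReal_zero] at h6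
        refine h6.congr fun h => ?_
        simp only [Function.comp_apply]
        push_cast
        rfl
      have h5 := h3.sub h4
      rw [sub_zero] at h5
      refine h5.congr fun h => ?_
      rw [← sub_div]
      congr 1
      rw [Polynomial.eval_finset_sum]
      push_cast
      rw [sub_sub_cancel]
      refine Finset.sum_congr rfl fun l _ => ?_
      rw [Polynomial.eval_mul, Polynomial.eval_C, Polynomial.eval_pow, Polynomial.eval_X])
    rw [h2, hcoef, if_pos (Nat.lt_succ_self r)]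
  -- the identity of polynomials
  set DD : Polynomial ℂ := (D.map fun p => Polynomial.C (k : ℂ) *
    (Polynomial.C (-(p.1 : ℂ)) + Polynomial.C (p.2 : ℂ) * Polynomial.X)).prod with hDD
  have hDDs : ∀ x : ℂ, DD.eval x = (D.map fun p => (k : ℂ) * (-(p.1 : ℂ) + p.2 * x)).prod := by
    intro x
    rw [hDD, Polynomial.eval_list_prod, List.map_map]
    congr 1
    refine List.map_congr_left fun p _ => ?_
    simp
  have hpoly : Zt.num * DD = (Q r).map (algebraMap ℝ ℂ) * Zt.denom := by
    obtain ⟨N, hN⟩ := eventually_atTop.1 hlim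
    have hfin : (Zt.denom.roots.toFinset : Set ℂ).Finite := Finset.finite_toSet _
    rw [← sub_eq_zero]
    by_contra hne
    set W := Zt.num * DD - (Q r).map (algebraMap ℝ ℂ) * Zt.denom with hW
    have hall : ∀ s : ℕ, N ≤ s → Zt.denom.eval (s : ℂ) ≠ 0 → W.eval (s : ℂ) = 0 := by
      intro s hsN hd
      have h1 := hN s hsN
      rw [RatFunc.eval, Polynomial.eval₂_id, Polynomial.eval₂_id] at h1
      rw [hW, Polynomial.eval_sub, Polynomial.eval_mul, Polynomial.eval_mul, hDDs]
      have h2 : (D.map fun p => (k : ℂ) * (-(p.1 : ℂ) + p.2 * (s : ℂ))).prod =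
          (D.map fun p => ((k * mm p s : ℝ) : ℂ)).prod := by
        congr 1
        refine List.map_congr_left fun p _ => ?_
        rw [mm]
        push_cast
        ring
      have h3 : ((Q r).map (algebraMap ℝ ℂ)).eval (s : ℂ) = (((Q r).eval (s : ℝ) : ℝ) : ℂ) := by
        have h4 := Polynomial.eval_map_algebraMap (Q r) (s : ℂ)
        have h5 : ((s : ℕ) : ℂ) = algebraMap ℝ ℂ (s : ℝ) := by
          rw [map_natCast]
        rw [h5, Polynomial.eval_map_apply]
        rfl
      rw [h2, h3, ← h1]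
      field_simp
      ring
    have hinf : Set.Infinite {x : ℂ | W.IsRoot x} := by
      have h1 : Set.Infinite ((fun s : ℕ => (s : ℂ)) '' {s : ℕ | N ≤ s ∧
          Zt.denom.eval (s : ℂ) ≠ 0}) := by
        refine Set.Infinite.image (Nat.cast_injective.injOn) ?_
        have h2 : {s : ℕ | N ≤ s ∧ Zt.denom.eval (s : ℂ) ≠ 0} =
            {s : ℕ | N ≤ s} \ {s : ℕ | Zt.denom.eval (s : ℂ) = 0} := by
          ext s
          simp
        rw [h2]
        refine Set.Infinite.sdiff (Set.Ici_infinite N) ?_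
        refine Set.Finite.subset (hfin.preimage (Nat.cast_injective.injOn)) ?_
        intro s hs1
        change (s : ℂ) ∈ (Zt.denom.roots.toFinset : Set ℂ)
        rw [Finset.mem_coe, Multiset.mem_toFinset, Polynomial.mem_roots (RatFunc.denom_ne_zero Zt)]
        exact hs1
      refine h1.mono ?_
      rintro _ ⟨s, ⟨h2, h3⟩, rfl⟩
      exact hall s h2 h3
    exact hne (Polynomial.eq_zero_of_infinite_isRoot W hinf)
  have hdvd : Zt.denom ∣ DD := by
    have h1 : Zt.denom ∣ Zt.num * DD := by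
      rw [hpoly]
      exact dvd_mul_left _ _
    exact (RatFunc.isCoprime_num_denom Zt).symm.dvd_of_dvd_mul_left h1
  have h1 : DD.eval s₀ = 0 := by
    obtain ⟨W, hW⟩ := hdvd
    rw [hW, Polynomial.eval_mul, hs, zero_mul]
  rw [hDDs, List.prod_eq_zero_iff, List.mem_map] at h1
  obtain ⟨p, hp, h2⟩ := h1
  have hk' : (k : ℂ) ≠ 0 := by exact_mod_cast hk.ne'
  have h3 : -(p.1 : ℂ) + p.2 * s₀ = 0 := (mul_eq_zero.1 h2).resolve_left hk'
  have h4 : (p.2 : ℂ) ≠ 0 := by exact_mod_cast (hD p hp).2.1.ne'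
  have h5 : s₀ = (p.1 : ℂ) / p.2 := by
    rw [eq_div_iff h4]
    linear_combination h3
  rw [h5]
  exact (hD p hp).2.2

end Pool.Agent.Zk74.TZ
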