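import Pool.Agent.Zk74.TZ.Defs

set_option autoImplicit false

/-! # Values of power series -/

namespace Pool.Agent.Zk74.TZ

open Filter Topology PowerSeries

variable {M : Type} [CommRing M] (ψ : M →+* ℝ) (t : ℝ)

/-- absolute convergence -/
def AbsAt (Z : PowerSeries M) : Prop := Summable fun e => ‖ψ (coeff e Z) * t ^ e‖

/-- the value -/
noncomputable def valAt (Z : PowerSeries M) : ℝ := ∑' e, ψ (coeff e Z) * t ^ e

variable {ψ t}

theorem AbsAt.add {Z W : PowerSeries M} (hZ : AbsAt ψ t Z) (hW : AbsAt ψ t W) :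
    AbsAt ψ t (Z + W) ∧ valAt ψ t (Z + W) = valAt ψ t Z + valAt ψ t W := by
  have h1 : (fun e => ψ (coeff e (Z + W)) * t ^ e) =
      fun e => ψ (coeff e Z) * t ^ e + ψ (coeff e W) * t ^ e := by
    funext e
    rw [map_add, map_add, add_mul]
  constructor
  · refine Summable.of_nonneg_of_le (fun _ => norm_nonneg _) (fun e => ?_)
      (Summable.add hZ hW)
    rw [map_add, map_add, add_mul]
    exact norm_add_le _ _
  · rw [valAt, h1]
    exact Summable.tsum_add (Summable.of_norm hZ) (Summable.of_norm hW)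

theorem coeff_mul_pow (Z W : PowerSeries M) (e : ℕ) : ψ (coeff e (Z * W)) * t ^ e =
    ∑ p ∈ Finset.HasAntidiagonal.antidiagonal e, (ψ (coeff p.1 Z) * t ^ p.1) * (ψ (coeff p.2 W) * t ^ p.2) := by
  rw [coeff_mul, map_sum, Finset.sum_mul]
  refine Finset.sum_congr rfl fun p hp => ?_
  rw [← Finset.HasAntidiagonal.mem_antidiagonal.1 hp, map_mul, pow_add]
  ring

theorem AbsAt.mul {Z W : PowerSeries M} (hZ : AbsAt ψ t Z) (hW : AbsAt ψ t W) :
    AbsAt ψ t (Z * W) ∧ valAt ψ t (Z * W) = valAt ψ t Z * valAt ψ t W := by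
  constructor
  · have h1 := summable_norm_sum_mul_antidiagonal_of_summable_norm hZ hW
    simp only [AbsAt, coeff_mul_pow]
    exact h1
  · have h1 := tsum_mul_tsum_eq_tsum_sum_antidiagonal_of_summable_norm hZ hW
    rw [valAt, valAt, valAt, h1]
    exact tsum_congr fun e => coeff_mul_pow Z W e

theorem absAt_poly (P : Polynomial M) : AbsAt ψ t (P : PowerSeries M) ∧
    valAt ψ t (P : PowerSeries M) = (P.map ψ).eval t := by
  have h0 : ∀ e ∉ Finset.range (P.natDegree + 1), ψ (coeff e (P : PowerSeries M)) * t ^ e = 0 := by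
    intro e he
    rw [Polynomial.coeff_coe, Polynomial.coeff_eq_zero_of_natDegree_lt, map_zero, zero_mul]
    have := Finset.mem_range.not.1 he
    omega
  constructor
  · refine summable_of_ne_finset_zero (s := Finset.range (P.natDegree + 1)) fun e he => ?_
    rw [h0 e he, norm_zero]
  · rw [valAt, tsum_eq_sum h0, Polynomial.eval_eq_sum_range' (n := P.natDegree + 1)
      (lt_of_le_of_lt Polynomial.natDegree_map_le (Nat.lt_succ_self _))]
    exact Finset.sum_congr rfl fun e _ => by rw [Polynomial.coeff_coe, Polynomial.coeff_map]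

/-- the geometric series -/
theorem geoU_eq (u : Mˣ) (a : ℤ) (n : ℕ) (hn : 0 < n) :
    Pool.Agent.TH192.DT.geoU u a n =
      PowerSeries.mk fun e => if n ∣ e then ((u ^ a : Mˣ) : M) ^ (e / n) else 0 := by
  set c : M := ((u ^ a : Mˣ) : M) with hc
  have h1 : (1 - PowerSeries.C c * PowerSeries.X ^ n) *
      (PowerSeries.mk fun e => if n ∣ e then c ^ (e / n) else 0) = 1 := by
    ext e
    rw [sub_mul, one_mul, map_sub, mul_assoc, coeff_C_mul, coeff_X_pow_mul', coeff_mk, coeff_one]
    by_cases h0 : e = 0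
    · subst h0
      rw [if_pos (dvd_zero n), if_neg (by omega), Nat.zero_div, pow_zero, mul_zero, sub_zero,
        if_pos rfl]
    rw [if_neg h0]
    by_cases h2 : n ≤ e
    · rw [if_pos h2, coeff_mk]
      by_cases h3 : n ∣ e
      · rw [if_pos h3, if_pos (Nat.dvd_sub h3 (dvd_refl n))]
        obtain ⟨q, rfl⟩ := h3
        have hq : q ≠ 0 := by
          rintro rfl
          exact h0 (mul_zero n)
        obtain ⟨r, rfl⟩ := Nat.exists_eq_succ_of_ne_zero hq
        have h4 : n * r.succ - n = n * r := by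
          rw [Nat.mul_succ, Nat.add_sub_cancel]
        rw [h4, Nat.mul_div_cancel_left _ hn, Nat.mul_div_cancel_left _ hn, pow_succ]
        ring
      · rw [if_neg h3, if_neg, mul_zero, sub_zero]
        intro h4
        exact h3 ((Nat.dvd_sub_iff_left h2 (dvd_refl n)).1 h4)
    · rw [if_neg h2, mul_zero, sub_zero, if_neg]
      intro h3
      exact h2 (Nat.le_of_dvd (Nat.pos_of_ne_zero h0) h3)
  have h2 : (1 - PowerSeries.C c * PowerSeries.X ^ n) * Pool.Agent.TH192.DT.geoU u a n = 1 := by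
    rw [Pool.Agent.TH192.DT.geoU]
    have h3 := PowerSeries.mul_invOfUnit (1 - PowerSeries.C c * PowerSeries.X ^ n) (1 : Mˣ) (by
      rw [map_sub, map_one, map_mul, map_pow, constantCoeff_X, zero_pow hn.ne', mul_zero,
        sub_zero, Units.val_one])
    exact h3
  have h3 : Pool.Agent.TH192.DT.geoU u a n =
      (PowerSeries.mk fun e => if n ∣ e then c ^ (e / n) else 0) *
        ((1 - PowerSeries.C c * PowerSeries.X ^ n) * Pool.Agent.TH192.DT.geoU u a n) := by
    rw [← mul_assoc, mul_comm (PowerSeries.mk _), h1, one_mul]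
  rw [h3, h2, mul_one]

theorem absAt_geoU (u : Mˣ) (a : ℤ) (n : ℕ) (hn : 0 < n)
    (h : ‖ψ ((u ^ a : Mˣ) : M) * t ^ n‖ < 1) : AbsAt ψ t (Pool.Agent.TH192.DT.geoU u a n) := by
  rw [geoU_eq u a n hn, AbsAt]
  have hinj : Function.Injective fun j : ℕ => n * j := fun i j hij =>
    Nat.eq_of_mul_eq_mul_left hn hij
  refine (Function.Injective.summable_iff hinj ?_).1 ?_
  · intro e he
    rw [coeff_mk, if_neg, map_zero, zero_mul, norm_zero]
    rintro ⟨q, rfl⟩
    exact he ⟨q, rfl⟩
  · refine (summable_geometric_of_lt_one (norm_nonneg _) h).congr fun j => ?_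
    rw [Function.comp_apply, coeff_mk, if_pos (dvd_mul_right n j), Nat.mul_div_cancel_left _ hn,
      map_pow, pow_mul, ← mul_pow, norm_pow]

end Pool.Agent.Zk74.TZ
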